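import Mathlib
import Pool.Agent.P8H67.TU.Stm

/-!
# Project TU (helper67): the lattice is discrete (package LATT)
-/

set_option autoImplicit false

open Set Filter Topology

namespace Pool.Agent.P8H96.TU

open Pool.Agent.P8H67.TU

theorem latt : S_LATT := by
  intro E Γ _ _ _ _ hol N _ Ω d Φ θ hD hF
  obtain ⟨p, hp⟩ := hD.ne
  have : ProperSpace E := FiniteDimensional.proper_real E
  obtain ⟨s, hs, hsub⟩ := Metric.nhds_basis_closedBall.mem_iff.1 (hD.opn.mem_nhds hp)
  have hfin := hD.pd _ hsub (isCompact_closedBall p s)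
  have hc : Continuous fun a : Fin d → ℝ => Φ a p :=
    hF.smooth.continuous.comp (continuous_id.prodMk continuous_const)
  have h0 : ∀ᶠ a in 𝓝 (0 : Fin d → ℝ), Φ a p ∈ Metric.closedBall p s := by
    have h1 := hc.continuousAt (x := (0 : Fin d → ℝ))
    have h2 : Metric.closedBall p s ∈ 𝓝 (Φ 0 p) := by
      rw [hF.zero]
      exact Metric.closedBall_mem_nhds p hs
    exact h1 h2
  -- the small elements of the lattice
  have hA : {a : Fin d → ℝ | Φ a p ∈ Metric.closedBall p s ∧ ∃ ν ∈ N, ∀ q, hol ν q = Φ a q}.Finite := by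
    refine (hfin.biUnion fun γ _ => Set.Subsingleton.finite
      (s := {a : Fin d → ℝ | ∀ q, hol γ q = Φ a q}) ?_).subset ?_
    · intro a ha b hb
      have h1 : ∀ q, Φ (a - b) q = q := by
        intro q
        have h2 : Φ (a + -b) q = Φ (b + -b) q := by
          rw [hF.add, hF.add, ← ha, ← hb]
        rw [sub_eq_add_neg, h2, add_neg_cancel, hF.zero]
      exact sub_eq_zero.1 (hF.faith _ h1)
    · rintro a ⟨ha, ν, -, hν⟩
      refine mem_biUnion (x := ν) ?_ hν
      refine ⟨p, Metric.mem_closedBall_self hs.le, ?_⟩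
      rw [hν]
      exact ha
  have h3 : ∀ᶠ a in 𝓝 (0 : Fin d → ℝ),
      a ∉ {a : Fin d → ℝ | Φ a p ∈ Metric.closedBall p s ∧ ∃ ν ∈ N, ∀ q, hol ν q = Φ a q} \ {0} :=
    (hA.subset sdiff_subset).isClosed.isOpen_compl.mem_nhds (by simp)
  obtain ⟨r, hr, hball⟩ := Metric.eventually_nhds_iff_ball.1 (h0.and h3)
  refine ⟨r, hr, fun a ha har => ?_⟩
  obtain ⟨h4, h5⟩ := hball a (by rwa [mem_ball_zero_iff])
  by_contra hne
  exact h5 ⟨⟨h4, ha⟩, hne⟩

end Pool.Agent.P8H96.TU
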