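import Mathlib
import Pool.Agent.P8H67.TU.Stm

/-!
# Project TU (helper67): a proper free action of a vector group is a product (package TRIV)

With an exhaustion `K_n` of `Ω` by compact sets and numbers `R_n` such that `‖a‖ ≤ R_n` if `p, Φ a p ∈ K_n` there is a positive
continuous function `ψ ≤ (1 + R_n)^(-(d+2))` at the points of `K_n \ K_(n-1)`. Then for `p ∈ K_m` one has
`ψ (Φ a p) ≤ (1 + R_m)^(d+2) (1 + ‖a‖)^(-(d+2))`, and `F p = - (∫ ψ (Φ a p) a da) / ∫ ψ (Φ a p) da` is continuous.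
-/

set_option autoImplicit false

open Set Filter Topology MeasureTheory

namespace Pool.Agent.P8H96.TU

open Pool.Agent.P8H67.TU

/-- A positive continuous function which decreases fast along the orbits, locally uniformly. -/
theorem exists_weight {E : Type} [NormedAddCommGroup E] [NormedSpace ℝ E] [FiniteDimensional ℝ E] {Ω : Set E} {d : ℕ}
    {Φ : (Fin d → ℝ) → E → E} (hΩ : IsOpen Ω) (hS : Satu E Ω d Φ) (hP : Prp E Ω d Φ) :
    ∃ ψ : E → ℝ, ContinuousOn ψ Ω ∧ (∀ q ∈ Ω, 0 < ψ q) ∧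
      ∀ p ∈ Ω, ∃ C : ℝ, ∀ᶠ q in 𝓝 p, ∀ a, ψ (Φ a q) ≤ C * ((1 + ‖a‖) ^ (d + 2))⁻¹ := by
  classical
  have : ProperSpace E := FiniteDimensional.proper_real E
  have : LocallyCompactSpace Ω := hΩ.locallyCompactSpace
  obtain ⟨K⟩ : Nonempty (CompactExhaustion Ω) := ⟨CompactExhaustion.choice Ω⟩
  have hR : ∀ n, ∃ R : ℝ, ∀ a, ∀ p ∈ (Subtype.val '' (K n) : Set E), Φ a p ∈ (Subtype.val '' (K n) : Set E) →
      ‖a‖ ≤ R := by
    intro n
    refine hP.1 _ ?_ ((K.isCompact n).image continuous_subtype_val)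
    rintro _ ⟨x, -, rfl⟩
    exact x.2
  choose R hR using hR
  obtain ⟨Q, hQ⟩ : ∃ Q : ℕ → ℝ, Q = fun n => ∑ i ∈ Finset.range (n + 1), |R i| := ⟨_, rfl⟩
  have hQ0 : ∀ n, 0 ≤ Q n := fun n => by
    rw [hQ]
    exact Finset.sum_nonneg fun _ _ => abs_nonneg _
  have hQm : Monotone Q := by
    refine monotone_nat_of_le_succ fun n => ?_
    rw [hQ]
    simp only
    rw [Finset.sum_range_succ _ (n + 1)]
    exact le_add_of_nonneg_right (abs_nonneg _)
  have hRQ : ∀ n, R n ≤ Q n := fun n => by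
    rw [hQ]
    exact (le_abs_self _).trans (Finset.single_le_sum (f := fun i => |R i|) (fun _ _ => abs_nonneg _)
      (Finset.mem_range.2 (Nat.lt_succ_self n)))
  have hKR : ∀ n a (p : Ω) (hp : Φ a p ∈ Ω), p ∈ K n → (⟨Φ a p, hp⟩ : Ω) ∈ K n → ‖a‖ ≤ Q n := by
    intro n a p hp h1 h2
    exact (hR n a p ⟨p, h1, rfl⟩ ⟨⟨Φ a p, hp⟩, h2, rfl⟩).trans (hRQ n)
  obtain ⟨u, hu⟩ : ∃ u : ℕ → ℝ, u = fun n => ((1 + Q n) ^ (d + 2))⁻¹ := ⟨_, rfl⟩
  have hu0 : ∀ n, 0 < u n := fun n => by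
    rw [hu]
    have := hQ0 n
    positivity
  have hum : Antitone u := by
    intro m n hmn
    rw [hu]
    have h1 := hQm hmn
    have h2 := hQ0 m
    have h3 : 0 < (1 + Q m) ^ (d + 2) := by positivity
    exact inv_anti₀ h3 (pow_le_pow_left₀ (by linarith) (by linarith) _)
  have hu1 : ∀ n, u n ≤ 1 := fun n => by
    rw [hu]
    have := hQ0 n
    exact inv_le_one_of_one_le₀ (one_le_pow₀ (by linarith))
  obtain ⟨g, hg⟩ := exists_continuous_forall_mem_convex_of_local_const (X := Ω) (E := ℝ)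
    (t := fun q => Ioc 0 (u (K.find q))) (fun q => convex_Ioc _ _) (by
      intro x
      refine ⟨u (K.find x + 1), ?_⟩
      have h1 : interior (K (K.find x + 1)) ∈ 𝓝 x :=
        isOpen_interior.mem_nhds (K.subset_interior_succ _ (K.mem_find x))
      filter_upwards [h1] with y hy
      exact ⟨hu0 _, hum (K.mem_iff_find_le.1 (interior_subset hy))⟩)
  refine ⟨fun q => if h : q ∈ Ω then g ⟨q, h⟩ else 0, ?_, ?_, ?_⟩
  · rw [continuousOn_iff_continuous_domRestrict]
    refine g.continuous.congr fun x => ?_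
    show g x = if h : (x : E) ∈ Ω then g ⟨x, h⟩ else 0
    rw [dif_pos x.2]
  · intro q hq
    simp only [hq, dif_pos]
    exact (hg ⟨q, hq⟩).1
  · intro p hp
    refine ⟨((1 + Q (K.find ⟨p, hp⟩ + 1)) ^ (d + 2)), ?_⟩
    obtain ⟨m, hm⟩ : ∃ m, m = K.find ⟨p, hp⟩ + 1 := ⟨_, rfl⟩
    rw [← hm]
    have h1 : K m ∈ 𝓝 (⟨p, hp⟩ : Ω) := by
      rw [hm]
      exact Filter.mem_of_superset (isOpen_interior.mem_nhds (K.subset_interior_succ _ (K.mem_find _))) interior_subset
    have h2 : (Subtype.val '' (K m) : Set E) ∈ 𝓝 p := by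
      have := hΩ.isOpenEmbedding_subtypeVal.image_mem_nhds.2 h1
      exact this
    filter_upwards [h2] with q hq a
    obtain ⟨y, hy, rfl⟩ := hq
    have hay : Φ a y ∈ Ω := hS a y y.2
    simp only [hay, dif_pos]
    have h3 := (hg ⟨Φ a y, hay⟩).2
    have hA0 : 0 < (1 + ‖a‖) ^ (d + 2) := by positivity
    have hQ1 : (1 : ℝ) ≤ (1 + Q m) ^ (d + 2) := one_le_pow₀ (by linarith [hQ0 m])
    rcases le_total m (K.find ⟨Φ a y, hay⟩) with h | h
    · have h4 := hKR _ a y hay (K.subset h hy) (K.mem_find _)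
      have h5 : u (K.find ⟨Φ a y, hay⟩) ≤ ((1 + ‖a‖) ^ (d + 2))⁻¹ := by
        rw [hu]
        exact inv_anti₀ hA0 (pow_le_pow_left₀ (by positivity) (by linarith) _)
      calc g ⟨Φ a y, hay⟩ ≤ ((1 + ‖a‖) ^ (d + 2))⁻¹ := h3.trans h5
        _ = 1 * ((1 + ‖a‖) ^ (d + 2))⁻¹ := (one_mul _).symm
        _ ≤ (1 + Q m) ^ (d + 2) * ((1 + ‖a‖) ^ (d + 2))⁻¹ := mul_le_mul_of_nonneg_right hQ1 (by positivity)
    · have h4 := hKR m a y hay hy (K.subset h (K.mem_find _))
      have h5 : (1 + ‖a‖) ^ (d + 2) ≤ (1 + Q m) ^ (d + 2) := pow_le_pow_left₀ (by positivity) (by linarith) _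
      refine (h3.trans (hu1 _)).trans ?_
      rw [← div_eq_mul_inv, one_le_div hA0]
      exact h5

theorem integrable_bound (d : ℕ) : Integrable (fun a : Fin d → ℝ => ((1 + ‖a‖) ^ (d + 2))⁻¹) := by
  have h := integrable_one_add_norm (E := Fin d → ℝ) (μ := volume) (r := ((d + 2 : ℕ) : ℝ)) (by
    rw [Module.finrank_fin_fun]
    push_cast
    linarith)
  refine h.congr (Eventually.of_forall fun a => ?_)
  simp only
  rw [Real.rpow_neg (by positivity), Real.rpow_natCast]

theorem integrable_bound' (d : ℕ) : Integrable (fun a : Fin d → ℝ => ((1 + ‖a‖) ^ (d + 1))⁻¹) := by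
  have h := integrable_one_add_norm (E := Fin d → ℝ) (μ := volume) (r := ((d + 1 : ℕ) : ℝ)) (by
    rw [Module.finrank_fin_fun]
    push_cast
    linarith)
  refine h.congr (Eventually.of_forall fun a => ?_)
  simp only
  rw [Real.rpow_neg (by positivity), Real.rpow_natCast]

theorem triv : S_TRIV := by
  intro E _ _ _ Ω d Φ hΩ hc h0 hadd hS hP
  obtain ⟨ψ, hψc, hψ0, hψb⟩ := exists_weight hΩ hS hP
  have hca : ∀ p : E, Continuous fun a : Fin d → ℝ => Φ a p := fun p =>
    hc.comp (continuous_id.prodMk continuous_const)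
  have hcp : ∀ a : Fin d → ℝ, Continuous fun p : E => Φ a p := fun a =>
    hc.comp (continuous_const.prodMk continuous_id)
  have hψa : ∀ p ∈ Ω, Continuous fun a => ψ (Φ a p) := by
    intro p hp
    exact hψc.comp_continuous (hca p) fun a => hS a p hp
  have hψp : ∀ a, ∀ p ∈ Ω, ContinuousAt (fun q => ψ (Φ a q)) p := by
    intro a p hp
    have h1 : ContinuousAt ψ (Φ a p) := hψc.continuousAt (hΩ.mem_nhds (hS a p hp))
    exact ContinuousAt.comp (g := ψ) (f := fun q => Φ a q) h1 (hcp a).continuousAt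
  have hpos : ∀ p ∈ Ω, ∀ a, 0 < ψ (Φ a p) := fun p hp a => hψ0 _ (hS a p hp)
  -- the bound for the first moment
  have hmom : ∀ (C : ℝ) (a : Fin d → ℝ) (x : ℝ), 0 < x → x ≤ C * ((1 + ‖a‖) ^ (d + 2))⁻¹ →
      ‖x • a‖ ≤ |C| * ((1 + ‖a‖) ^ (d + 1))⁻¹ := by
    intro C a x hx hxC
    have h1 : 0 < 1 + ‖a‖ := by positivity
    rw [norm_smul, Real.norm_eq_abs, abs_of_pos hx]
    calc x * ‖a‖ ≤ (|C| * ((1 + ‖a‖) ^ (d + 2))⁻¹) * (1 + ‖a‖) := by
          refine mul_le_mul (hxC.trans (mul_le_mul_of_nonneg_right (le_abs_self C) (by positivity))) (by linarith)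
            (norm_nonneg _) (by positivity)
      _ = |C| * ((1 + ‖a‖) ^ (d + 1))⁻¹ := by
          rw [pow_succ (1 + ‖a‖) (d + 1)]
          field_simp
  have hint : ∀ p ∈ Ω, Integrable (fun a => ψ (Φ a p)) := by
    intro p hp
    obtain ⟨C, hC⟩ := hψb p hp
    refine ((integrable_bound d).const_mul C).mono' (hψa p hp).aestronglyMeasurable (Eventually.of_forall fun a => ?_)
    rw [Real.norm_eq_abs, abs_of_pos (hpos p hp a)]
    exact hC.self_of_nhds a
  have hint' : ∀ p ∈ Ω, Integrable (fun a => ψ (Φ a p) • a) := by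
    intro p hp
    obtain ⟨C, hC⟩ := hψb p hp
    refine ((integrable_bound' d).const_mul |C|).mono' ((hψa p hp).smul continuous_id).aestronglyMeasurable
      (Eventually.of_forall fun a => ?_)
    exact hmom C a _ (hpos p hp a) (hC.self_of_nhds a)
  obtain ⟨G, hG⟩ : ∃ G : E → ℝ, G = fun p => ∫ a, ψ (Φ a p) := ⟨_, rfl⟩
  obtain ⟨H, hH⟩ : ∃ H : E → (Fin d → ℝ), H = fun p => ∫ a, ψ (Φ a p) • a := ⟨_, rfl⟩
  have hGpos : ∀ p ∈ Ω, 0 < G p := by
    intro p hp
    rw [hG]
    simp only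
    rw [integral_pos_iff_support_of_nonneg (fun a => (hpos p hp a).le) (hint p hp)]
    have : Function.support (fun a => ψ (Φ a p)) = univ := by
      ext a
      simp [(hpos p hp a).ne']
    rw [this]
    exact isOpen_univ.measure_pos _ univ_nonempty
  have hGc : ∀ p ∈ Ω, ContinuousAt G p := by
    intro p hp
    obtain ⟨C, hC⟩ := hψb p hp
    rw [hG]
    refine continuousAt_of_dominated (bound := fun a => C * ((1 + ‖a‖) ^ (d + 2))⁻¹) ?_ ?_
      ((integrable_bound d).const_mul C) (Eventually.of_forall fun a => hψp a p hp)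
    · filter_upwards [hΩ.mem_nhds hp] with q hq
      exact (hψa q hq).aestronglyMeasurable
    · filter_upwards [hΩ.mem_nhds hp, hC] with q hq hCq
      refine Eventually.of_forall fun a => ?_
      rw [Real.norm_eq_abs, abs_of_pos (hpos q hq a)]
      exact hCq a
  have hHc : ∀ p ∈ Ω, ContinuousAt H p := by
    intro p hp
    obtain ⟨C, hC⟩ := hψb p hp
    rw [hH]
    refine continuousAt_of_dominated (bound := fun a => |C| * ((1 + ‖a‖) ^ (d + 1))⁻¹) ?_ ?_
      ((integrable_bound' d).const_mul |C|) (Eventually.of_forall fun a => (hψp a p hp).smul continuousAt_const)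
    · filter_upwards [hΩ.mem_nhds hp] with q hq
      exact ((hψa q hq).smul continuous_id).aestronglyMeasurable
    · filter_upwards [hΩ.mem_nhds hp, hC] with q hq hCq
      exact Eventually.of_forall fun a => hmom C a _ (hpos q hq a) (hCq a)
  refine ⟨fun p => -((G p)⁻¹ • H p), ?_, ?_⟩
  · intro p hp
    exact ((((hGc p hp).inv₀ (hGpos p hp).ne').smul (hHc p hp)).neg).continuousWithinAt
  · intro b p hp
    have h1 : G (Φ b p) = G p := by
      rw [hG]
      simp only
      rw [← integral_add_right_eq_self (fun a => ψ (Φ a p)) b]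
      simp_rw [hadd]
    have h2 : H (Φ b p) = H p - G p • b := by
      have h3 : H (Φ b p) = ∫ a, ψ (Φ a p) • (a - b) := by
        rw [← integral_add_right_eq_self (fun a => ψ (Φ a p) • (a - b)) b, hH]
        simp only [add_sub_cancel_right, hadd]
      rw [h3]
      have h4 : (fun a => ψ (Φ a p) • (a - b)) = fun a => ψ (Φ a p) • a - ψ (Φ a p) • b := by
        funext a
        rw [smul_sub]
      rw [h4, integral_sub (hint' p hp) ((hint p hp).smul_const b), integral_smul_const, hH, hG]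
    simp only
    rw [h1, h2, smul_sub, smul_smul, inv_mul_cancel₀ (hGpos p hp).ne', one_smul]
    abel

end Pool.Agent.P8H96.TU
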